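import Pool.Agent.Work.MP_27a5a0_lc.BR.Main

/-!
MP_27a5a0_lc. Universal TSP when only requests with at most `k` points are made: the best
competitive ratio `R_k(n)` on `n`-point metric spaces is at most `⌊k/2⌋`, and at least
`(M/(M+1)) ⌊k/2⌋` if `n ≥ (3 * 2^M)^k`.
-/

set_option autoImplicit false

namespace Pool.Agent.Results.MP_27a5a0_lc.BoundedRequests

open Pool.Agent.UTSP.BR

/-- Two-sided bound for `R_k(n)`, sharp for `k = o(log n)`: `R_k(n) ≤ ⌊k/2⌋`, and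
`(M/(M+1)) ⌊k/2⌋ ≤ R_k(n)` for all `M ≥ 1`, `k ≥ 2` with `n ≥ (3 * 2^M)^k`. -/
theorem result : ∀ k n : ℕ, RK k n ≤ ((k / 2 : ℕ) : ENNReal) ∧
    ∀ M : ℕ, 1 ≤ M → 2 ≤ k → (3 * 2 ^ M) ^ k ≤ n →
      ENNReal.ofReal ((M : ℝ) / (M + 1) * ((k / 2 : ℕ) : ℝ)) ≤ RK k n :=
  fun k n => ⟨Pool.Agent.UTSP.BR.main.1 k n,
    fun M hM hk hn => Pool.Agent.UTSP.BR.main.2 M k n hM hk hn⟩

end Pool.Agent.Results.MP_27a5a0_lc.BoundedRequests
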