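import Pool.Agent.Work.MP_27a5a0_lc.DT.I_GL
import Pool.Agent.Work.MP_27a5a0_lc.DT.I_CT
import Pool.Agent.Work.MP_27a5a0_lc.DT.I_SL
import Pool.Agent.Work.MP_27a5a0_lc.DT.I_SPL
import Pool.Agent.Work.MP_27a5a0_lc.DT.I_BL
import Pool.Agent.Work.MP_27a5a0_lc.DT.I_OL
import Pool.Agent.Work.MP_27a5a0_lc.DT.I_NET
import Pool.Agent.Work.MP_27a5a0_lc.DT.I_HP
import Pool.Agent.Work.MP_27a5a0_lc.DT.I_TO
import Pool.Agent.Work.MP_27a5a0_lc.DT.I_WK
import Pool.Agent.Work.MP_27a5a0_lc.DT.MNa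
import Pool.Agent.Work.MP_27a5a0_lc.DT.I_RT

/-!
MP_27a5a0_lc. Universal TSP: master tours of ratio `O(d log n)` for metrics of doubling dimension
`d`, and `O(d ^ α log n / α)` for their snowflakes `δ ^ α`, `0 < α ≤ 1`.
-/

set_option autoImplicit false

namespace Pool.Agent.Results.MP_27a5a0_lc.DoublingSnowflake

open Pool.Agent.UTSP Pool.Agent.UTSP.DT Finset

theorem met {n : ℕ} (m : MetricSpace (Fin n)) : IsMet (fun x y => m.dist x y) where
  self x := m.dist_self x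
  pos x y hxy := by
    have h1 : 0 ≤ m.dist x y := @dist_nonneg (Fin n) m.toPseudoMetricSpace x y
    exact lt_of_le_of_ne h1 fun h => hxy (m.eq_of_dist_eq_zero h.symm)
  symm x y := m.dist_comm x y
  tri x y z := m.dist_triangle x y z

/-- There is an absolute constant `C` such that for every metric `δ` on `n ≥ 2` points in which
every ball of radius `r > 0` is covered by `2 ^ d` balls of radius `r / 2` (`d ≥ 1`) and for every
`0 < α ≤ 1` the metric `δ ^ α` has a master tour of competitive ratio at most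
`C * d ^ α * log n / α` (for `α = 1`: `C * d * log n`). -/
theorem result : ∃ C : ℝ, 0 < C ∧ ∀ n : ℕ, 2 ≤ n → ∀ (m : MetricSpace (Fin n)) (d : ℕ), 1 ≤ d →
    (∀ (x : Fin n) (r : ℝ), 0 < r → ∃ A : Finset (Fin n), A.card ≤ 2 ^ d ∧
      ∀ y, m.dist x y ≤ r → ∃ a ∈ A, m.dist a y ≤ r / 2) →
    ∀ α : ℝ, 0 < α → α ≤ 1 → ∃ τ : List (Fin n), IsOrd univ τ ∧
      ratio (fun x y => m.dist x y ^ α) τ ≤ ENNReal.ofReal (C * (d : ℝ) ^ α * Real.log n / α) := by
  have hSL : S_SL := pr_SL pr_GL pr_CT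
  have hBL : S_BL := pr_BL hSL pr_SPL
  have hOL : S_OL := pr_OL hBL
  have hHP : S_HP := pr_HP hOL pr_NET
  obtain ⟨C, hC, h⟩ := pr_MNa hHP pr_TO pr_WK
  refine ⟨C, hC, ?_⟩
  intro n hn m d hd hdoub α h0 h1
  have hmet := met m
  obtain ⟨τ, hτ, hr⟩ := h (Fin n) (fun x y => m.dist x y) hmet d hd hdoub
    (by rw [Fintype.card_fin]; exact hn) α h0 h1
  refine ⟨τ, hτ, ?_⟩
  rw [Fintype.card_fin] at hr
  have hln : 0 ≤ Real.log n := Real.log_natCast_nonneg n
  exact pr_RT (Fin n) (sf (fun x y => m.dist x y) α) (ICOa.sf_met hmet h0 h1)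
    (C * (d : ℝ) ^ α * Real.log n / α) τ (by positivity) hr

end Pool.Agent.Results.MP_27a5a0_lc.DoublingSnowflake
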