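import Pool.Agent.Work.MP_27a5a0_lc.Final
import Pool.Agent.Work.MP_27a5a0_lc.T1
import Pool.Agent.Work.MP_27a5a0_lc.T2
import Pool.Agent.Work.MP_27a5a0_lc.T3
import Pool.Agent.Work.MP_27a5a0_lc.T4
import Pool.Agent.Work.MP_27a5a0_lc.T5
import Pool.Agent.Work.MP_27a5a0_lc.L1
import Pool.Agent.Work.MP_27a5a0_lc.L2
import Pool.Agent.Work.MP_27a5a0_lc.L3
import Pool.Agent.Work.MP_27a5a0_lc.P1
import Pool.Agent.Work.MP_27a5a0_lc.P2
import Pool.Agent.Work.MP_27a5a0_lc.A1
import Pool.Agent.Work.MP_27a5a0_lc.A2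
import Pool.Agent.Work.MP_27a5a0_lc.A3
import Pool.Agent.Work.MP_27a5a0_lc.W1
import Pool.Agent.Work.MP_27a5a0_lc.W2
import Pool.Agent.Work.MP_27a5a0_lc.K1
import Pool.Agent.Work.MP_27a5a0_lc.C1
import Pool.Agent.Work.MP_27a5a0_lc.Z1
import Pool.Agent.Work.MP_27a5a0_lc.F1
import Pool.Agent.Work.MP_27a5a0_lc.B1
import Pool.Agent.Work.MP_27a5a0_lc.M1
import Pool.Agent.Work.MP_27a5a0_lc.M2
import Pool.Agent.Work.MP_27a5a0_lc.M3
import Pool.Agent.Work.MP_27a5a0_lc.Q1
import Pool.Agent.Work.MP_27a5a0_lc.Q2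
import Pool.Agent.Work.MP_27a5a0_lc.N1
import Pool.Agent.Work.MP_27a5a0_lc.N2
import Pool.Agent.Work.MP_27a5a0_lc.N3
import Pool.Agent.Work.MP_27a5a0_lc.E1

/-!
MP_27a5a0_lc. Universal TSP: for every `c < 1/4`, `R n ≥ (log n) ^ (1 + c)` for all large `n`;
in particular `R n` is not `O(log n)`.
-/

namespace Pool.Agent.Results.MP_27a5a0_lc.LowerBound

open Pool.Agent.UTSP

/-- For every `c` with `0 < c < 1/4` the optimal competitive ratio `R n` of universal TSP on
`n`-point metric spaces is at least `(log n) ^ (1 + c)` for all large `n`. In particular `R n` is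
not `O(log n)`. -/
theorem result :
    (∀ c : ℝ, 0 < c → c < 1 / 4 → ∀ᶠ n : ℕ in Filter.atTop,
      ENNReal.ofReal (Real.log n ^ (1 + c)) ≤ R n) ∧
    ¬ ∃ C : ℝ, ∀ᶠ n : ℕ in Filter.atTop, R n ≤ ENNReal.ofReal (C * Real.log n) := by
  have hTour : claimTour := prfTour prfFilter prfSepCost prfInsert prfGap
  have hLab : claimLab := prfLab hTour prfSnow
  have hKeep : claimKeep := prfKeep prfAvgPool prfAvgLip prfAvgCap prfPsi prfWin
  have hPhi : claimPhi := prfPhi prfPool prfOut hKeep prfCoarse prfAvgPool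
  have hCount : claimCount := prfCount prfTopo (prfCell prfMaurey prfLat) prfBad prfZcard
  have h : claimFinal := final prfSnow hLab prfNear hPhi hCount prfNumPhi prfNumCount prfNumLog
    prfExt
  exact ⟨h, not_bigO h⟩

end Pool.Agent.Results.MP_27a5a0_lc.LowerBound
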