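import Pool.Agent.Work.MP_27a5a0_lc.PD.I_CUT
import Pool.Agent.Work.MP_27a5a0_lc.PD.I_BLp
import Pool.Agent.Work.MP_27a5a0_lc.PD.I_OLp
import Pool.Agent.Work.MP_27a5a0_lc.PD.I_HPp
import Pool.Agent.Work.MP_27a5a0_lc.PD.MNp
import Pool.Agent.Work.MP_27a5a0_lc.DT.I_CT
import Pool.Agent.Work.MP_27a5a0_lc.DT.I_TO
import Pool.Agent.Work.MP_27a5a0_lc.DT.I_WK
import Pool.Agent.Work.MP_27a5a0_lc.DT.I_RT

/-!
MP_27a5a0_lc. Universal TSP: master tours of ratio `O(β log n)` for metrics with `β`-padded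
decompositions, and `O(β ^ α log n / α)` for their snowflakes `δ ^ α`, `0 < α ≤ 1`.
-/

set_option autoImplicit false

namespace Pool.Agent.Results.MP_27a5a0_lc.PaddedDecompositions

open Pool.Agent.UTSP Pool.Agent.UTSP.DT Pool.Agent.UTSP.PD Finset

open Classical in
/-- The metric `m` on `Fin n` is `β`-decomposable: for every `Δ > 0` there is a random partition
(finitely many partitions `Q i`, given by labels, with probabilities `p i`) into sets of diameter
at most `Δ` such that for every point `x` the ball of radius `Δ / β` around `x` lies in one block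
with probability at least `1 / 2`. -/
def Decomposable {n : ℕ} (m : MetricSpace (Fin n)) (β : ℝ) : Prop :=
  ∀ Δ : ℝ, 0 < Δ → ∃ (N : ℕ) (p : Fin N → ℝ) (Q : Fin N → Fin n → ℕ),
    (∀ i, 0 ≤ p i) ∧ ∑ i, p i = 1 ∧ (∀ i x y, Q i x = Q i y → m.dist x y ≤ Δ) ∧
      ∀ x, 1 / 2 ≤ ∑ i ∈ univ.filter (fun i => ∀ y, m.dist x y ≤ Δ / β → Q i y = Q i x), p i

theorem met {n : ℕ} (m : MetricSpace (Fin n)) : IsMet (fun x y => m.dist x y) where
  self x := m.dist_self x
  pos x y hxy := by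
    have h1 : 0 ≤ m.dist x y := @dist_nonneg (Fin n) m.toPseudoMetricSpace x y
    exact lt_of_le_of_ne h1 fun h => hxy (m.eq_of_dist_eq_zero h.symm)
  symm x y := m.dist_comm x y
  tri x y z := m.dist_triangle x y z

/-- From probabilities to weights. -/
theorem dec {n : ℕ} (m : MetricSpace (Fin n)) (β : ℝ) (hβ : 1 ≤ β) (h : Decomposable m β) (d : ℕ)
    (hd : β ≤ d) : Dec (fun x y => m.dist x y) d := by
  classical
  intro Δ hΔ ω hω
  obtain ⟨N, p, Q, hp0, hp1, hQ1, hQ2⟩ := h Δ hΔ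
  have hle : Δ / (d : ℝ) ≤ Δ / β := div_le_div_of_nonneg_left hΔ.le (by linarith) hd
  -- average of the padded weight
  have havg : (∑ x, ω x) / 2 ≤ ∑ i, p i *
      ∑ x ∈ univ.filter (fun x => ∀ y, m.dist x y ≤ Δ / d → Q i y = Q i x), ω x := by
    calc (∑ x, ω x) / 2 = ∑ x, ω x * (1 / 2) := by
          rw [← Finset.sum_mul]
          ring
      _ ≤ ∑ x, ω x * ∑ i ∈ univ.filter (fun i => ∀ y, m.dist x y ≤ Δ / β → Q i y = Q i x), p i :=
          Finset.sum_le_sum fun x _ => mul_le_mul_of_nonneg_left (hQ2 x) (hω x)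
      _ ≤ ∑ x, ω x * ∑ i ∈ univ.filter (fun i => ∀ y, m.dist x y ≤ Δ / d → Q i y = Q i x), p i := by
          refine Finset.sum_le_sum fun x _ => mul_le_mul_of_nonneg_left ?_ (hω x)
          refine Finset.sum_le_sum_of_subset_of_nonneg ?_ (fun i _ _ => hp0 i)
          intro i hi
          rw [Finset.mem_filter] at hi ⊢
          exact ⟨hi.1, fun y hy => hi.2 y (hy.trans hle)⟩
      _ = ∑ i, p i *
          ∑ x ∈ univ.filter (fun x => ∀ y, m.dist x y ≤ Δ / d → Q i y = Q i x), ω x := by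
          simp only [Finset.sum_filter, Finset.mul_sum]
          rw [Finset.sum_comm]
          refine Finset.sum_congr rfl fun i _ => Finset.sum_congr rfl fun x _ => ?_
          split_ifs
          · ring
          · simp
  by_contra hcon
  push Not at hcon
  have h1 : ∑ i, p i *
      ∑ x ∈ univ.filter (fun x => ∀ y, m.dist x y ≤ Δ / d → Q i y = Q i x), ω x <
      (∑ x, ω x) / 2 := by
    have hlt : ∀ i, ∑ x ∈ univ.filter (fun x => ∀ y, m.dist x y ≤ Δ / d → Q i y = Q i x), ω x <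
        (∑ x, ω x) / 2 := fun i => hcon (Q i) (hQ1 i)
    obtain ⟨i0, hi0⟩ : ∃ i, 0 < p i := by
      by_contra hc
      push Not at hc
      have : ∑ i, p i ≤ 0 := Finset.sum_nonpos fun i _ => hc i
      linarith
    calc _ < ∑ i, p i * ((∑ x, ω x) / 2) := by
          refine Finset.sum_lt_sum (fun i _ => mul_le_mul_of_nonneg_left (hlt i).le (hp0 i)) ?_
          exact ⟨i0, mem_univ _, mul_lt_mul_of_pos_left (hlt i0) hi0⟩
      _ = (∑ x, ω x) / 2 := by rw [← Finset.sum_mul, hp1, one_mul]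
  linarith

/-- There is an absolute constant `C` such that for every `β ≥ 1`, every `β`-decomposable metric
`δ` on `n ≥ 2` points and every `0 < α ≤ 1` the metric `δ ^ α` has a master tour of competitive
ratio at most `C * β ^ α * log n / α` (for `α = 1`: `C * β * log n`). -/
theorem result : ∃ C : ℝ, 0 < C ∧ ∀ n : ℕ, 2 ≤ n → ∀ (m : MetricSpace (Fin n)) (β : ℝ), 1 ≤ β →
    Decomposable m β → ∀ α : ℝ, 0 < α → α ≤ 1 → ∃ τ : List (Fin n), IsOrd univ τ ∧
      ratio (fun x y => m.dist x y ^ α) τ ≤ ENNReal.ofReal (C * β ^ α * Real.log n / α) := by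
  have hHP : S_HPp := pr_HPp (pr_OLp (pr_BLp pr_CUT pr_CT))
  obtain ⟨C, hC, h⟩ := pr_MNp hHP pr_TO pr_WK
  refine ⟨2 * C, by positivity, ?_⟩
  intro n hn m β hβ hdec α h0 h1
  have hmet := met m
  obtain ⟨d, hd⟩ : ∃ d : ℕ, d = ⌈β⌉₊ := ⟨_, rfl⟩
  have hd1 : β ≤ (d : ℝ) := by
    rw [hd]
    exact Nat.le_ceil β
  have hd2 : (d : ℝ) ≤ 2 * β := by
    rw [hd]
    have := (Nat.ceil_lt_add_one (by linarith : 0 ≤ β)).le
    linarith
  have hd3 : 1 ≤ d := by
    have : (1 : ℝ) ≤ d := hβ.trans hd1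
    exact_mod_cast this
  obtain ⟨τ, hτ, hr⟩ := h (Fin n) (fun x y => m.dist x y) hmet d hd3 (dec m β hβ hdec d hd1)
    (by rw [Fintype.card_fin]; exact hn) α h0 h1
  refine ⟨τ, hτ, ?_⟩
  rw [Fintype.card_fin] at hr
  have hln : 0 ≤ Real.log n := Real.log_natCast_nonneg n
  refine (pr_RT (Fin n) (sf (fun x y => m.dist x y) α) (ICOa.sf_met hmet h0 h1)
    (C * (d : ℝ) ^ α * Real.log n / α) τ (by positivity) hr).trans ?_
  apply ENNReal.ofReal_le_ofReal
  have h2 : (d : ℝ) ^ α ≤ 2 * β ^ α := by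
    calc (d : ℝ) ^ α ≤ (2 * β) ^ α := Real.rpow_le_rpow (by positivity) hd2 h0.le
      _ = 2 ^ α * β ^ α := Real.mul_rpow (by norm_num) (by linarith)
      _ ≤ 2 * β ^ α := by
          apply mul_le_mul_of_nonneg_right (ICOa.two_rpow_le h1)
          exact Real.rpow_nonneg (by linarith) α
  apply div_le_div_of_nonneg_right _ h0.le
  have h3 : C * (d : ℝ) ^ α ≤ 2 * C * β ^ α := by nlinarith
  exact mul_le_mul_of_nonneg_right h3 hln

end Pool.Agent.Results.MP_27a5a0_lc.PaddedDecompositions
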